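import Mathlib

set_option autoImplicit false

namespace Pool.Agent.Results.MP_ca1982_an.AllSums

open Set Filter Topology

noncomputable def nu (x : ℝ) : ℝ := ‖(x : UnitAddCircle)‖

theorem nu_cont : Continuous nu := continuous_norm.comp (AddCircle.continuous_mk' 1)

theorem nu_add (x y : ℝ) : nu (x + y) ≤ nu x + nu y := by
  simp only [nu, AddCircle.coe_add]; exact norm_add_le _ _

theorem nu_int (n : ℤ) (x : ℝ) : nu (n + x) ≤ |x| := by
  have : ((n : ℝ) : UnitAddCircle) = 0 := (AddCircle.coe_eq_zero_iff 1).2 ⟨n, by simp⟩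
  simp only [nu, AddCircle.coe_add, this, zero_add]
  exact QuotientAddGroup.norm_mk_le_norm

theorem nu_half (x : ℝ) : 1 / 2 ≤ nu x + nu (x + 1 / 2) := by
  have h := AddCircle.norm_half_period_eq (1 : ℝ)
  have h2 := norm_sub_le (((x + 1 / 2 : ℝ)) : UnitAddCircle) (x : UnitAddCircle)
  rw [← AddCircle.coe_sub, add_sub_cancel_left, h] at h2
  simp only [nu]
  norm_num at h2 ⊢
  linarith

def mu : ℕ → ℕ
  | 0 => 1
  | j + 1 => 8 * (j + 1) ^ 3 * mu j

def N (j : ℕ) : ℕ := 8 * (j + 1) * mu j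

theorem mu_ge (j : ℕ) : j + 1 ≤ mu j := by
  induction j with
  | zero => exact le_rfl
  | succ j ih =>
    have : 1 ≤ (j + 1) ^ 3 := Nat.one_le_pow _ _ (by omega)
    simp only [mu]; nlinarith

theorem mu_pos (j : ℕ) : (0 : ℝ) < mu j := by
  have := mu_ge j; exact_mod_cast (by omega : 0 < mu j)

theorem mu_succ (j : ℕ) : (mu (j + 1) : ℝ) = N j * (j + 1) ^ 2 := by
  simp only [mu, N]; push_cast; ring

theorem N_eq (j : ℕ) : (N j : ℝ) = 8 * (j + 1) * mu j := by simp [N]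

theorem step (a b s w : ℝ) (h : 1 ≤ |a| * w) (hw : 0 ≤ w) :
    ∃ t ∈ Icc s (s + w), ∃ n : ℤ, a * t + b = n := by
  have hc : ContinuousOn (fun t => a * t + b) (uIcc s (s + w)) := by fun_prop
  have hI := intermediate_value_uIcc hc
  rw [uIcc_of_le (by linarith : s ≤ s + w)] at hI
  rcases le_total 0 a with ha | ha
  · rw [abs_of_nonneg ha] at h
    obtain ⟨t, ht, e⟩ := hI (mem_uIcc_of_le (Int.le_ceil (a * s + b))
      (by have := Int.ceil_lt_add_one (a * s + b); nlinarith))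
    exact ⟨t, ht, _, e⟩
  · rw [abs_of_nonpos ha] at h
    obtain ⟨t, ht, e⟩ := hI (mem_uIcc_of_ge (x := (⌊a * s + b⌋ : ℝ))
      (by have := Int.lt_floor_add_one (a * s + b); nlinarith) (Int.floor_le (a * s + b)))
    exact ⟨t, ht, _, e⟩

theorem nest (a b : ℕ → ℝ) (G : ℕ → Prop) (j0 : ℕ) (hup : ∀ j, |a j| ≤ N j * (j + 1))
    (hlo : ∀ j, G j → N j ≤ |a j| * (2 * j + 2)) :
    ∃ t ∈ Icc (0 : ℝ) (1 / (2 * mu j0)), ∀ j, j0 ≤ j → G j → nu (a j * t + b j) ≤ 1 / (j + 1) := by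
  let l : ℕ → ℝ := fun j => 1 / (2 * mu j)
  have hl : ∀ j, 0 < l j := fun j => by have := mu_pos j; positivity
  have h2 : ∀ j, l (j + 1) ≤ l j / 2 := fun j => by
    have h1 := mu_pos j
    have h3 : (0 : ℝ) ≤ j := Nat.cast_nonneg j
    simp only [l, mu_succ, N_eq]
    rw [div_div]
    refine one_div_le_one_div_of_le (by positivity) ?_
    nlinarith [mul_nonneg h3 h1.le, mul_nonneg (mul_nonneg h3 h3) h1.le,
      mul_nonneg (mul_nonneg (mul_nonneg h3 h3) h3) h1.le]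
  have st : ∀ (j : ℕ) (s : ℝ), ∃ t ∈ Icc s (s + l j / 2), G j → ∃ n : ℤ, a j * t + b j = n := by
    intro j s
    by_cases hG : G j
    · obtain ⟨t, ht, h⟩ := step (a j) (b j) s (l j / 2) (by
        have h1 := mu_pos j
        have h3 := hlo j hG
        rw [N_eq] at h3
        have h4 : 4 * mu j ≤ |a j| := by
          have : (0 : ℝ) < 2 * j + 2 := by positivity
          nlinarith
        simp only [l]
        rw [div_div, mul_one_div, le_div_iff₀ (by positivity)]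
        linarith) (by have := hl j; positivity)
      exact ⟨t, ht, fun _ => h⟩
    · exact ⟨s, ⟨le_rfl, by linarith [hl j]⟩, fun h => absurd h hG⟩
  choose nx h1 h3 using st
  let s : ℕ → ℝ := fun k => Nat.rec 0 (fun k s => nx (j0 + k) s) k
  obtain ⟨t, ht⟩ := IsCompact.nonempty_iInter_of_sequence_nonempty_isCompact_isClosed
    (fun k => Icc (s k) (s k + l (j0 + k)))
    (fun k => Icc_subset_Icc (h1 (j0 + k) (s k)).1 (by
      have := (h1 (j0 + k) (s k)).2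
      have h4 := h2 (j0 + k)
      show nx (j0 + k) (s k) + l (j0 + k + 1) ≤ _
      linarith))
    (fun k => nonempty_Icc.2 (by linarith [hl (j0 + k)])) isCompact_Icc fun _ => isClosed_Icc
  have ht := mem_iInter.1 ht
  refine ⟨t, by simpa [s, l] using ht 0, fun j hj hG => ?_⟩
  obtain ⟨k, rfl⟩ := Nat.exists_eq_add_of_le hj
  obtain ⟨n, hn⟩ := h3 (j0 + k) (s k) hG
  have h4 : t ∈ Icc (nx (j0 + k) (s k)) (nx (j0 + k) (s k) + l (j0 + k + 1)) := ht (k + 1)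
  have e : a (j0 + k) * t + b (j0 + k) = n + a (j0 + k) * (t - nx (j0 + k) (s k)) := by
    rw [← hn]; ring
  rw [e]
  refine (nu_int _ _).trans ?_
  rw [abs_mul, abs_of_nonneg (sub_nonneg.2 h4.1)]
  have h5 := mu_pos (j0 + k + 1)
  calc _ ≤ (N (j0 + k) * ((j0 + k : ℕ) + 1) : ℝ) * l (j0 + k + 1) :=
        mul_le_mul (hup _) (by linarith [h4.2]) (sub_nonneg.2 h4.1) (by positivity)
    _ ≤ _ := by
      simp only [l]
      rw [mul_one_div, div_le_div_iff₀ (by positivity) (by positivity), mu_succ]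
      have : (0 : ℝ) ≤ N (j0 + k) * ((j0 + k : ℕ) + 1) ^ 2 := by positivity
      nlinarith

def ph (j : ℕ) (p : ℝ × ℝ) : ℝ := N j * (p.1 + j * p.2)

theorem ph_cont (j : ℕ) : Continuous (ph j) := by unfold ph; fun_prop

theorem ph_le (j : ℕ) (u : ℝ × ℝ) : |ph j u| ≤ N j * (j + 1) * ‖u‖ := by
  have h1 : |u.1| ≤ ‖u‖ := norm_fst_le u
  have h2 : |u.2| ≤ ‖u‖ := norm_snd_le u
  have h3 : (0 : ℝ) ≤ j := Nat.cast_nonneg j
  rw [ph, abs_mul, Nat.abs_cast, mul_assoc]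
  refine mul_le_mul_of_nonneg_left ((abs_add_le _ _).trans ?_) (Nat.cast_nonneg _)
  rw [abs_mul, Nat.abs_cast]
  nlinarith

theorem bad_unique (u : ℝ × ℝ) (hu : ‖u‖ = 1) {j k : ℕ} (hjk : j < k)
    (hj : ¬ N j ≤ |ph j u| * (2 * j + 2)) (hk : ¬ N k ≤ |ph k u| * (2 * k + 2)) : False := by
  have key : ∀ i : ℕ, ¬ N i ≤ |ph i u| * (2 * i + 2) → |u.1 + i * u.2| * (2 * i + 2) < 1 := by
    intro i hi
    by_contra h
    apply hi
    rw [ph, abs_mul, Nat.abs_cast, mul_assoc]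
    exact le_mul_of_one_le_right (Nat.cast_nonneg _) (not_lt.1 h)
  have h1 := key j hj
  have h2 := key k hk
  have h3 : (j : ℝ) + 1 ≤ k := by exact_mod_cast hjk
  have h0 : (0 : ℝ) ≤ j := Nat.cast_nonneg j
  have h4 : |u.1 + k * u.2| * (2 * j + 2) < 1 := by nlinarith [abs_nonneg (u.1 + k * u.2)]
  have h5 : |u.2| ≤ |u.1 + j * u.2| + |u.1 + k * u.2| := by
    have := abs_sub (u.1 + k * u.2) (u.1 + j * u.2)
    rw [show u.1 + k * u.2 - (u.1 + j * u.2) = (k - j) * u.2 by ring, abs_mul,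
      abs_of_nonneg (by linarith : (0 : ℝ) ≤ k - j)] at this
    nlinarith [abs_nonneg u.2]
  have h6 : |u.1| ≤ |u.1 + j * u.2| + j * |u.2| := by
    have := abs_sub (u.1 + j * u.2) (j * u.2)
    rwa [add_sub_cancel_right, abs_mul, Nat.abs_cast] at this
  have h7 : |u.2| * (2 * j + 2) < 2 := by nlinarith
  have h8 : |u.2| < 1 := by nlinarith [abs_nonneg u.2]
  have h9 : |u.1| < 1 := by
    by_contra h
    nlinarith [mul_nonneg h0 (abs_nonneg u.2), mul_le_mul_of_nonneg_left h7.le h0]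
  have : ‖u‖ < 1 := max_lt h9 h8
  linarith

def Q : Set (ℝ × ℝ) := Icc 0 1 ×ˢ Icc 0 1

def good (j : ℕ) (p : ℝ × ℝ) : Prop := nu (ph j p) ≤ 1 / (j + 1)

def K : Set (ℝ × ℝ) := Q ∩ ⋂ J : Finset ℕ, ⋂ _ : J.card = 3, ⋃ j ∈ J, {p | good j p}

theorem near (j : ℕ) (c : ℤ × ℤ) (p : ℝ × ℝ) (h : ‖p - ((c.1 : ℝ), (c.2 : ℝ))‖ ≤ 1 / mu (j + 1)) :
    good j p := by
  have e : ph j p = (N j * (c.1 + j * c.2) : ℤ) + ph j (p - ((c.1 : ℝ), (c.2 : ℝ))) := by
    simp only [ph, Prod.fst_sub, Prod.snd_sub]; push_cast; ring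
  rw [good, e]
  refine (nu_int _ _).trans ((ph_le _ _).trans ?_)
  have h5 := mu_pos (j + 1)
  refine (mul_le_mul_of_nonneg_left h (by positivity)).trans (le_of_eq ?_)
  rw [mu_succ] at h5 ⊢
  have : (N j : ℝ) ≠ 0 := by rintro h; simp [h] at h5
  field_simp

theorem seg (q u : ℝ × ℝ) (hq : q ∈ Q) (hu : ‖u‖ = 1) : ∃ (c : ℤ × ℤ) (σ : ℝ), |σ| = 1 ∧
    ∀ t ∈ Icc 0 ‖q - ((c.1 : ℝ), (c.2 : ℝ))‖, q + (t * σ) • u ∈ Q := by
  obtain ⟨⟨a1, a2⟩, b1, b2⟩ := hq
  have h1 : |u.1| ≤ 1 := hu ▸ norm_fst_le u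
  have h2 : |u.2| ≤ 1 := hu ▸ norm_snd_le u
  have one : ∀ x : ℝ, 0 ≤ x → x ≤ 1 → ∃ c : ℤ, |x - c| ≤ 1 / 2 ∧
      (∀ w, |w| ≤ |x - c| → x + w ∈ Icc (0 : ℝ) 1) ∧
      ∀ v : ℝ, |v| ≤ 1 → ∃ σ : ℝ, |σ| = 1 ∧ ∀ t, 0 ≤ t → t ≤ 1 / 2 → x + t * σ * v ∈ Icc (0 : ℝ) 1 := by
    intro x x0 x1
    rcases le_total x (1 / 2) with h | h
    · refine ⟨0, by rw [abs_of_nonneg] <;> simp <;> linarith, fun w hw => ?_, fun v hv => ?_⟩
      · simp only [Int.cast_zero, sub_zero, abs_of_nonneg x0] at hw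
        constructor <;> linarith [abs_le.1 hw]
      · rcases le_total 0 v with h0 | h0
        · exact ⟨1, by simp, fun t t0 t1 => by constructor <;> nlinarith [abs_le.1 hv]⟩
        · exact ⟨-1, by simp, fun t t0 t1 => by constructor <;> nlinarith [abs_le.1 hv]⟩
    · refine ⟨1, by rw [abs_of_nonpos] <;> simp <;> linarith, fun w hw => ?_, fun v hv => ?_⟩
      · rw [Int.cast_one, abs_of_nonpos (by linarith : x - 1 ≤ 0)] at hw
        constructor <;> linarith [abs_le.1 hw]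
      · rcases le_total 0 v with h0 | h0
        · exact ⟨-1, by simp, fun t t0 t1 => by constructor <;> nlinarith [abs_le.1 hv]⟩
        · exact ⟨1, by simp, fun t t0 t1 => by constructor <;> nlinarith [abs_le.1 hv]⟩
  obtain ⟨c1, p1, p2, p3⟩ := one q.1 a1 a2
  obtain ⟨c2, r1, r2, r3⟩ := one q.2 b1 b2
  have hn : ‖q - ((c1 : ℝ), (c2 : ℝ))‖ = max |q.1 - c1| |q.2 - c2| := rfl
  have hw : ∀ t σ v : ℝ, 0 ≤ t → |σ| = 1 → |v| ≤ 1 → |t * σ * v| ≤ t := fun t σ v t0 hs hv => by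
    rw [abs_mul, abs_mul, hs, abs_of_nonneg t0]; nlinarith
  rcases le_total |q.1 - c1| |q.2 - c2| with h | h
  · obtain ⟨σ, hs, h3⟩ := p3 u.1 h1
    refine ⟨(c1, c2), σ, hs, fun t ht => ?_⟩
    rw [hn, max_eq_right h] at ht
    exact ⟨h3 t ht.1 (ht.2.trans r1), r2 _ ((hw t σ u.2 ht.1 hs h2).trans ht.2)⟩
  · obtain ⟨σ, hs, h3⟩ := r3 u.2 h2
    refine ⟨(c1, c2), σ, hs, fun t ht => ?_⟩
    rw [hn, max_eq_left h] at ht
    exact ⟨p2 _ ((hw t σ u.1 ht.1 hs h1).trans ht.2), h3 t ht.1 (ht.2.trans p1)⟩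

theorem meets (q u : ℝ × ℝ) (hq : q ∈ Q) (hu : ‖u‖ = 1) : ∃ t : ℝ, q + t • u ∈ K := by
  classical
  obtain ⟨c, σ, hs, hseg⟩ := seg q u hq hu
  set δ := ‖q - ((c.1 : ℝ), (c.2 : ℝ))‖ with hδ
  rcases (norm_nonneg _ : 0 ≤ δ).eq_or_lt with h0 | h0
  · refine ⟨0, by simpa using hq, mem_iInter₂.2 fun J hJ => ?_⟩
    obtain ⟨j, hj⟩ := Finset.card_pos.1 (by omega : 0 < J.card)
    refine mem_iUnion₂.2 ⟨j, hj, near j c _ ?_⟩
    rw [zero_smul, add_zero, ← h0]
    have := mu_pos (j + 1); positivity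
  have ex : ∃ j, 1 / (mu (j + 1) : ℝ) < 2 * δ := by
    obtain ⟨j, hj⟩ := exists_nat_one_div_lt (by positivity : 0 < 2 * δ)
    refine ⟨j, lt_of_le_of_lt (one_div_le_one_div_of_le (by positivity) ?_) hj⟩
    have := mu_ge (j + 1)
    exact_mod_cast (by omega : j + 1 ≤ mu (j + 1))
  have hσu : ‖σ • u‖ = 1 := by rw [norm_smul, hu, Real.norm_eq_abs, hs, one_mul]
  obtain ⟨t, ht, h⟩ := nest (fun j => ph j (σ • u)) (fun j => ph j q)
    (fun j => N j ≤ |ph j (σ • u)| * (2 * j + 2)) (Nat.find ex + 1)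
    (fun j => by simpa [hσu] using ph_le j (σ • u)) fun _ h => h
  have ht2 : t ≤ δ := by
    have h1 := Nat.find_spec ex
    have h2 := ht.2
    rw [mul_comm, ← div_div] at h2
    linarith
  refine ⟨t * σ, hseg t ⟨ht.1, ht2⟩, mem_iInter₂.2 fun J hJ => ?_⟩
  by_contra hne
  have hb : ∀ j ∈ J, j = Nat.find ex ∨ ¬ N j ≤ |ph j (σ • u)| * (2 * j + 2) := by
    intro j hj
    by_contra h1
    push Not at h1
    refine hne (mem_iUnion₂.2 ⟨j, hj, ?_⟩)
    rcases lt_or_gt_of_ne h1.1 with h2 | h2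
    · refine near j c _ (le_trans ?_ (not_lt.1 (Nat.find_min ex h2)))
      rw [add_sub_right_comm]
      refine (norm_add_le _ _).trans ?_
      rw [mul_smul, norm_smul, hσu, Real.norm_eq_abs, abs_of_nonneg ht.1]
      linarith
    · have := h j h2 h1.2
      show nu _ ≤ _
      convert this using 2
      simp only [ph, Prod.fst_add, Prod.snd_add, Prod.smul_fst, Prod.smul_snd, smul_eq_mul]
      ring
  obtain ⟨i, hi, k, hk, hik⟩ := Finset.one_lt_card.1
    (by have := Finset.pred_card_le_card_erase (s := J) (a := Nat.find ex); omega :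
      1 < (J.erase (Nat.find ex)).card)
  rw [Finset.mem_erase] at hi hk
  have b1 := (hb i hi.2).resolve_left hi.1
  have b2 := (hb k hk.2).resolve_left hk.1
  rcases lt_or_gt_of_ne hik with h1 | h1
  · exact bad_unique _ hσu h1 b1 b2
  · exact bad_unique _ hσu h1 b2 b1

theorem result : ∃ K : Set (ℝ × ℝ), IsCompact K ∧ K ⊆ Icc 0 1 ×ˢ Icc 0 1 ∧
    (∀ p u : ℝ × ℝ, u ≠ 0 → (∃ t : ℝ, p + t • u ∈ Icc (0 : ℝ) 1 ×ˢ Icc (0 : ℝ) 1) →
      ∃ t : ℝ, p + t • u ∈ K) ∧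
    ∀ l : ℕ, 1 ≤ l → IsNowhereDense {x | ∃ f : Fin l → ℝ × ℝ, (∀ i, f i ∈ K) ∧ ∑ i, f i = x} := by
  classical
  refine ⟨K, (isCompact_Icc.prod isCompact_Icc).inter_right (isClosed_iInter fun J =>
    isClosed_iInter fun _ => isClosed_biUnion_finset fun j _ =>
      isClosed_le (nu_cont.comp (ph_cont j)) continuous_const), inter_subset_left, ?_, ?_⟩
  · rintro p u hu ⟨t, ht⟩
    obtain ⟨s, hs⟩ := meets _ (‖u‖⁻¹ • u) ht (norm_smul_inv_norm hu)
    exact ⟨t + s * ‖u‖⁻¹, by rwa [add_smul, mul_smul, ← add_assoc]⟩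
  intro l _
  refine eq_empty_of_forall_notMem fun x hx => ?_
  obtain ⟨r, hr, hb⟩ := Metric.mem_nhds_iff.1 (mem_interior_iff_mem_nhds.1 hx)
  obtain ⟨j1, hj1⟩ := exists_nat_one_div_lt hr
  set j0 := j1 + 2 * l + 2 with hj0
  obtain ⟨t, ht, h⟩ := nest (fun j => N j) (fun j => ph j x + 1 / 2) (fun _ => True) j0
    (fun j => by
      rw [Nat.abs_cast]; exact le_mul_of_one_le_right (Nat.cast_nonneg _) (by simp))
    fun j _ => by
      rw [Nat.abs_cast]
      exact le_mul_of_one_le_right (Nat.cast_nonneg _) (by linarith [Nat.cast_nonneg (α := ℝ) j])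
  have hy : x + (t, 0) ∈ Metric.ball x r := by
    rw [mem_ball_iff_norm, add_sub_cancel_left, Prod.norm_def]
    simp only [Real.norm_eq_abs, abs_of_nonneg ht.1, abs_zero, max_eq_left ht.1]
    refine ht.2.trans_lt (lt_of_le_of_lt (one_div_le_one_div_of_le (by positivity) ?_) hj1)
    have := mu_ge j0
    exact_mod_cast (by omega : j1 + 1 ≤ 2 * mu j0)
  let J := Finset.Ico j0 (j0 + 2 * l + 1)
  have hcl : IsClosed (⋃ j ∈ J, {y | nu (ph j y) ≤ l * (1 / (j + 1))}) :=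
    isClosed_biUnion_finset fun j _ => isClosed_le (nu_cont.comp (ph_cont j)) continuous_const
  have hsub := closure_minimal (s := {x | ∃ f : Fin l → ℝ × ℝ, (∀ i, f i ∈ K) ∧ ∑ i, f i = x})
    (by
      rintro _ ⟨f, hf, rfl⟩
      have hB : ∀ i, (J.filter fun j => ¬ good j (f i)).card ≤ 2 := by
        intro i
        by_contra hc
        obtain ⟨J', h1, h2⟩ := Finset.exists_subset_card_eq (s := J.filter fun j => ¬ good j (f i))
          (n := 3) (by omega)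
        obtain ⟨j, hj, hg⟩ := mem_iUnion₂.1 (mem_iInter₂.1 (hf i).2 J' h2)
        exact (Finset.mem_filter.1 (h1 hj)).2 hg
      have hc : (Finset.univ.biUnion fun i => J.filter fun j => ¬ good j (f i)).card < J.card := by
        refine (Finset.card_biUnion_le_card_mul _ _ _ fun i _ => hB i).trans_lt ?_
        simp [J]; omega
      obtain ⟨j, hj, hn⟩ := Finset.exists_mem_notMem_of_card_lt_card hc
      refine mem_iUnion₂.2 ⟨j, hj, ?_⟩
      have hg : ∀ i, good j (f i) := fun i => by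
        by_contra h
        exact hn (Finset.mem_biUnion.2 ⟨i, Finset.mem_univ _, Finset.mem_filter.2 ⟨hj, h⟩⟩)
      have e : ph j (∑ i, f i) = ∑ i, ph j (f i) := by
        simp only [ph, Prod.fst_sum, Prod.snd_sum, Finset.mul_sum, ← Finset.sum_add_distrib]
      show nu _ ≤ _
      rw [e]
      refine (Finset.le_sum_of_subadditive nu (by simp [nu]) nu_add _ _).trans ?_
      refine (Finset.sum_le_sum fun i _ => hg i).trans ?_
      simp) hcl
  obtain ⟨j, hj, h1⟩ := mem_iUnion₂.1 (hsub (hb hy))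
  have hj := (Finset.mem_Ico.1 hj).1
  have h2 := h j hj trivial
  have h3 := nu_half (ph j (x + (t, 0)))
  have e : ph j (x + (t, 0)) + 1 / 2 = N j * t + (ph j x + 1 / 2) := by
    simp only [ph, Prod.fst_add, Prod.snd_add]; ring
  rw [e] at h3
  have h1 : nu (ph j (x + (t, 0))) ≤ l * (1 / (j + 1)) := h1
  have h4 : ((l : ℝ) + 1) * (1 / (j + 1)) < 1 / 2 := by
    rw [mul_one_div, div_lt_div_iff₀ (by positivity) (by norm_num)]
    have : 2 * l + 2 ≤ j := by omega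
    have : (2 * l + 2 : ℝ) ≤ j := by exact_mod_cast this
    linarith
  linarith

end Pool.Agent.Results.MP_ca1982_an.AllSums
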